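import Pool.Agent.H71.CQ.Basic
import Pool.Agent.H71.CC

/-!
# MP_5607ba_lc: row CTO (countable-to-one families contain perfect families)
-/

set_option autoImplicit false

open Set MeasureTheory

namespace Pool.Agent.H7.CQ

open Pool.Agent.H71.CQ

theorem cto_iso_iff {L : Type} {a b : ℕ → ℕ → L} : Iso a b ↔
    ∃ y : (ℕ → ℕ) × (ℕ → ℕ), (∀ n, y.1 (y.2 n) = n) ∧ (∀ n, y.2 (y.1 n) = n) ∧
      ∀ i j, b (y.1 i) (y.1 j) = a i j := by
  constructor
  · rintro ⟨g, hg⟩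
    exact ⟨(g, g.symm), g.apply_symm_apply, g.symm_apply_apply, hg⟩
  · rintro ⟨⟨g, g'⟩, h1, h2, h3⟩
    exact ⟨⟨g, g', h2, h1⟩, h3⟩

theorem cto_eval {Z β : Type} [MeasurableSpace Z] [MeasurableSpace β] {f : Z → ℕ → β}
    (hf : ∀ i, Measurable fun z => f z i) {k : Z → ℕ} (hk : Measurable k) :
    Measurable fun z => f z (k z) := by
  intro s hs
  have h1 : (fun z => f z (k z)) ⁻¹' s = ⋃ i, (k ⁻¹' {i} ∩ (fun z => f z i) ⁻¹' s) := by
    ext z
    constructor
    · intro hz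
      exact mem_iUnion.2 ⟨k z, rfl, hz⟩
    · intro hz
      obtain ⟨i, h2, h3⟩ := mem_iUnion.1 hz
      have h4 : k z = i := h2
      change f z (k z) ∈ s
      rw [h4]
      exact h3
  rw [h1]
  exact MeasurableSet.iUnion fun i => (hk (measurableSet_singleton i)).inter (hf i hs)

theorem pf_CTO : T_CTO := by
  intro L _ _ F hF hc
  have hR : AnalyticSet {p : (ℕ → Bool) × (ℕ → Bool) | Iso (F p.1) (F p.2)} := by
    have hM : MeasurableSet {q : ((ℕ → Bool) × (ℕ → Bool)) × ((ℕ → ℕ) × (ℕ → ℕ)) |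
        (∀ n, q.2.1 (q.2.2 n) = n) ∧ (∀ n, q.2.2 (q.2.1 n) = n) ∧
          ∀ i j, F q.1.2 (q.2.1 i) (q.2.1 j) = F q.1.1 i j} := by
      have m1 : Measurable fun q : ((ℕ → Bool) × (ℕ → Bool)) × ((ℕ → ℕ) × (ℕ → ℕ)) => q.2.1 :=
        measurable_fst.comp measurable_snd
      have m2 : Measurable fun q : ((ℕ → Bool) × (ℕ → Bool)) × ((ℕ → ℕ) × (ℕ → ℕ)) => q.2.2 :=
        measurable_snd.comp measurable_snd
      have m3 : Measurable fun q : ((ℕ → Bool) × (ℕ → Bool)) × ((ℕ → ℕ) × (ℕ → ℕ)) =>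
          F q.1.1 := hF.comp (measurable_fst.comp measurable_fst)
      have m4 : Measurable fun q : ((ℕ → Bool) × (ℕ → Bool)) × ((ℕ → ℕ) × (ℕ → ℕ)) =>
          F q.1.2 := hF.comp (measurable_snd.comp measurable_fst)
      have e1 : ∀ n : ℕ, Measurable fun q : ((ℕ → Bool) × (ℕ → Bool)) × ((ℕ → ℕ) × (ℕ → ℕ)) =>
          q.2.1 n := fun n => (measurable_pi_apply n).comp m1
      have e2 : ∀ n : ℕ, Measurable fun q : ((ℕ → Bool) × (ℕ → Bool)) × ((ℕ → ℕ) × (ℕ → ℕ)) =>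
          q.2.2 n := fun n => (measurable_pi_apply n).comp m2
      have e3 : ∀ i j : ℕ, Measurable fun q :
          ((ℕ → Bool) × (ℕ → Bool)) × ((ℕ → ℕ) × (ℕ → ℕ)) => F q.1.1 i j := fun i j =>
        (measurable_pi_apply j).comp ((measurable_pi_apply i).comp m3)
      have e4 : ∀ i j : ℕ, Measurable fun q :
          ((ℕ → Bool) × (ℕ → Bool)) × ((ℕ → ℕ) × (ℕ → ℕ)) => F q.1.2 i j := fun i j =>
        (measurable_pi_apply j).comp ((measurable_pi_apply i).comp m4)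
      have e5 : ∀ i j : ℕ, Measurable fun q :
          ((ℕ → Bool) × (ℕ → Bool)) × ((ℕ → ℕ) × (ℕ → ℕ)) => F q.1.2 (q.2.1 i) (q.2.1 j) := by
        intro i j
        refine cto_eval (f := fun q l => F q.1.2 (q.2.1 i) l) (fun l => ?_) (e1 j)
        exact cto_eval (f := fun q k => F q.1.2 k l) (fun k => e4 k l) (e1 i)
      simp only [Set.ofPred_and, Set.ofPred_forall]
      refine MeasurableSet.inter ?_ (MeasurableSet.inter ?_ ?_)
      · exact MeasurableSet.iInter fun n => measurableSet_eq_fun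
          (cto_eval (f := fun q k => q.2.1 k) e1 (e2 n)) measurable_const
      · exact MeasurableSet.iInter fun n => measurableSet_eq_fun
          (cto_eval (f := fun q k => q.2.2 k) e2 (e1 n)) measurable_const
      · exact MeasurableSet.iInter fun i => MeasurableSet.iInter fun j =>
          measurableSet_eq_fun (e5 i j) (e3 i j)
    have h1 := Pool.Agent.H71.DST.analyticSet_proj hM
    have h2 : {p : (ℕ → Bool) × (ℕ → Bool) | Iso (F p.1) (F p.2)} =
        {x | ∃ y : (ℕ → ℕ) × (ℕ → ℕ), (x, y) ∈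
          {q : ((ℕ → Bool) × (ℕ → Bool)) × ((ℕ → ℕ) × (ℕ → ℕ)) |
            (∀ n, q.2.1 (q.2.2 n) = n) ∧ (∀ n, q.2.2 (q.2.1 n) = n) ∧
              ∀ i j, F q.1.2 (q.2.1 i) (q.2.1 j) = F q.1.1 i j}} := by
      ext p
      exact cto_iso_iff
    rw [h2]
    exact h1
  obtain ⟨f, h1, -, h3⟩ := Pool.Agent.H71.DST.exists_perfect_of_countable_sections hR hc
  exact ⟨f, h1.measurable, fun u v huv hg => h3 u v huv hg⟩

end Pool.Agent.H7.CQ
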